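import Pool.Agent.LRG.StmtsC

/-!
# LRG, row BKF: an arc carries boundedly many fields
-/

set_option autoImplicit false

open Polynomial NumberField

namespace Pool.Agent.LRG.H88

open Pool.Agent.LRG.CX

theorem bkf (hKol : KolConcl) (hGen : GenStmt) (hMch : A.MchStmt) (hSpl : A.SplStmt)
    (hOmr : CX.OmrStmt) (hCpr : CX.CprStmt) (hRun : CX.RunStmt) (hSpz : CX.SpzStmt)
    (hMat : CX.MatStmt) (hAlg : CX.AlgStmt) (hMrt : CX.MrtStmt) (hLen : CX.LenStmt)
    (hLzd : CX.LzdStmt) (hNsf : CX.NsfStmt) (hKlb : CX.KlbStmt) : BlkConcl := by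
  intro n r hr hn
  refine ⟨2 ^ n ^ n, ?_⟩
  intro p _ z₀ e M F hM hU ξ hξ hVan κ K hK u x k₀ hinjK hdeg hrank hprim hind hcst hpt hdvd hx0 hq
  have hn0 : 0 < n := by omega
  have hgen : ∀ k i, IntermediateField.adjoin ℚ {((u k i : 𝓞 (K k)) : K k)} = ⊤ :=
    fun k i => hGen (K k) r (u k) (hprim k) (hind k) i
  have he : ∀ i, e i = 1 ∨ e i = -1 := by
    intro i
    have h1 := (hMch n (K k₀) (u k₀ i) (hdeg k₀) (hgen k₀ i)).2
    have h2 := congrFun (hcst k₀) i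
    rw [← h2]
    exact h1
  obtain ⟨Ω, _, _, _, D, y, hArc⟩ := hOmr p n r z₀ e ξ hn0
  obtain ⟨η, hη⟩ : ∃ η : Ix n r → Ω, η = fun s => algebraMap (PowerSeries ℤ_[p]) Ω (ξ s) :=
    ⟨_, rfl⟩
  have hyO : yO z₀ ξ Ω = fun s => (z₀ s : Ω) + (p : Ω) ^ 2 * η s := by
    rw [hη]
    rfl
  have hsplit : ∀ i, chiI e (fun s => (z₀ s : Ω) + (p : Ω) ^ 2 * η s) i =
      ∏ j, (X - C (y i j)) := by
    intro i
    rw [← hyO]
    exact hArc.roots i
  have hker : ∀ k, ∀ q : MvPolynomial (Ix n r) ℤ, MvPolynomial.aeval η q = 0 →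
      MvPolynomial.eval (x k) q = 0 := by
    intro k q h1
    refine hq q ?_ k
    apply hArc.inj
    have h2 : ((algebraMap (PowerSeries ℤ_[p]) Ω).comp
        (MvPolynomial.aeval ξ : MvPolynomial (Ix n r) ℤ →ₐ[ℤ] PowerSeries ℤ_[p]).toRingHom) =
        (MvPolynomial.aeval η : MvPolynomial (Ix n r) ℤ →ₐ[ℤ] Ω).toRingHom := by
      refine MvPolynomial.ringHom_ext (fun a => by simp) (fun s => ?_)
      rw [hη]
      simp
    have h3 := RingHom.congr_fun h2 q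
    rw [map_zero, ← h1]
    exact h3
  choose g hg using fun k => hSpz Ω n r p z₀ e η y hn0 hsplit (x k) (hker k)
  choose π hπ using fun k => hMat Ω n r p z₀ e η y hn0 hsplit (x k) (g k) (hg k) (K k) (u k)
    (hdeg k) (hgen k) (hcst k) (hpt k)
  have hmem : ∀ i j, y i j ∈ Rx η y := fun i j =>
    Subring.subset_closure (Or.inr ⟨(i, j), rfl⟩)
  have hinj : ∀ i, Function.Injective (y i) := by
    intro i j j' hjj
    have h1 : g k₀ ⟨y i j, hmem i j⟩ = g k₀ ⟨y i j', hmem i j'⟩ := by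
      congr 1
      exact Subtype.ext hjj
    rw [hπ k₀ i j, hπ k₀ i j'] at h1
    exact (π k₀ i).injective ((hSpl (K k₀) (u k₀ i) (hgen k₀ i) ℂ).1 h1)
  have hprod : ∀ i, ∏ j, y i j = 1 ∨ ∏ j, y i j = -1 := by
    intro i
    exact hCpr Ω n (e i) (fun j => (z₀ (Sum.inl (i, j)) : Ω) + (p : Ω) ^ 2 * η (Sum.inl (i, j)))
      (y i) hn0 (he i) (hsplit i)
  obtain ⟨hne, hzm, hgz⟩ := hRun Ω n r (Rx η y) y hmem hprod
  obtain ⟨q, B, N, hrel, htop⟩ := hKol p n r z₀ e M F hM hU ξ hξ hVan Ω D y hArc hinj hne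
  have halg : ∀ μ : Fin r × Fin n → ℤ, D (∏ k, y k.1 k.2 ^ μ k) = 0 →
      IsAlgebraic ℚ (∏ k, y k.1 k.2 ^ μ k) :=
    hAlg p n r z₀ e ξ Ω D y hn0 he hArc (x k₀) hx0
  obtain ⟨L, hLn, hLf, hLm, hLd⟩ := hLzd n (K k₀) (hdeg k₀)
  have hCj : CjF (Cst D y) ≤ L := by
    refine hLen Ω (Cst D y) L hLn ?_
    rintro β ⟨μ, hμ, rfl⟩
    refine ⟨halg μ hμ, g k₀ ⟨∏ k, y k.1 k.2 ^ μ k, hzm μ⟩, ?_, ?_⟩
    · rw [(hgz ℂ (g k₀)).2 μ (hzm μ)]
      refine prod_mem fun k _ => zpow_mem ?_ _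
      rw [hπ k₀ k.1 k.2]
      exact hLm _ _
    · exact hMrt Ω (Rx η y) (g k₀) ⟨∏ k, y k.1 k.2 ^ μ k, hzm μ⟩ (halg μ hμ)
  have hfin : FiniteDimensional ℚ (CjF (Cst D y)) :=
    FiniteDimensional.of_injective (IntermediateField.inclusion hCj).toLinearMap
      (IntermediateField.inclusion hCj).injective
  have hKC : ∀ k, K k ≤ CjF (Cst D y) := by
    intro k
    refine hKlb Ω n r p q z₀ e η D y B N (x k) (g k) (K k) (u k) (π k) ?_ hfin
    exact
      { hn := hn0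
        he := he
        split := hsplit
        alg := halg
        rel := hrel
        top := by
          rw [← hyO]
          exact htop
        gη := hg k
        gx := hπ k
        deg := hdeg k
        rank := hrank k
        prim := hprim k
        gen := hgen k
        ind := hind k
        hcst := hcst k
        hpt := hpt k }
  have h1 := hNsf (n ^ n) L hLn hLf hLd
  have h2 : Set.range K ⊆ {E : IntermediateField ℚ ℂ | E ≤ L} := by
    rintro E ⟨k, rfl⟩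
    exact (hKC k).trans hCj
  refine (Set.encard_le_encard h2).trans (h1.trans (le_of_eq ?_))
  push_cast
  rfl

end Pool.Agent.LRG.H88
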