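import Pool.Agent.LRG.StmtsB

/-!
# LRG, row ACM: power series in several variables over a complete local ring
-/

set_option autoImplicit false

open IsLocalRing

namespace Pool.Agent.LRG.H88

/-- Transport of adic completeness along an isomorphism of local rings. -/
lemma adic_equiv {A B : Type} [CommRing A] [CommRing B] [IsLocalRing A] [IsLocalRing B]
    (e : A ≃+* B) (h : IsAdicComplete (maximalIdeal A) A) : IsAdicComplete (maximalIdeal B) B := by
  rw [← IsLocalRing.map_ringEquiv_maximalIdeal e]
  exact (IsAdicComplete.congr_ringEquiv (maximalIdeal A) e).mpr h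

theorem acm : AcmStmt := by
  intro hA R _ _ hR σ hσ
  have key : ∀ n : ℕ, IsAdicComplete (maximalIdeal (MvPowerSeries (Fin n) R))
      (MvPowerSeries (Fin n) R) := by
    intro n
    induction n with
    | zero => exact adic_equiv (MvPowerSeries.isEmptyEquiv (Fin 0) R).symm.toRingEquiv hR
    | succ n ih =>
      exact adic_equiv (MvPowerSeries.finSuccEquiv R n).symm.toRingEquiv (hA _ ih)
  obtain ⟨n, ⟨e⟩⟩ := Finite.exists_equiv_fin σ
  exact adic_equiv (MvPowerSeries.renameEquiv R e).symm.toRingEquiv (key n)

end Pool.Agent.LRG.H88
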