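import Pool.Agent.LRG.StmtsB2

/-!
# LRG, row LDP: the leading term after a change of coordinates
-/

set_option autoImplicit false

open Polynomial

namespace Pool.Agent.LRG.H88

section
variable {R : Type} [CommRing R] {n : ℕ}

/-- The monomial `v ^ α` in the coordinates `v'`, `v 0`. -/
noncomputable def TT (R : Type) [CommRing R] {n : ℕ} (K : ℕ) (α : Fin (n + 1) → ℕ) :
    (MvPolynomial (Fin n) R)[X] :=
  X ^ α 0 * ∏ i : Fin n, (X ^ (K + 1) ^ ((i : ℕ) + 1) + C (MvPolynomial.X i)) ^ α i.succ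

/-- The degree of `TT`. -/
def dl (K : ℕ) (α : Fin (n + 1) → ℕ) : ℕ := ∑ i, α i * (K + 1) ^ (i : ℕ)

theorem deg_CX (K : ℕ) (i : Fin n) : (C (MvPolynomial.X i) : (MvPolynomial (Fin n) R)[X]).degree <
    ((K + 1) ^ ((i : ℕ) + 1) : ℕ) :=
  lt_of_le_of_lt degree_C_le (by
    have : 0 < (K + 1) ^ ((i : ℕ) + 1) := Nat.pow_pos (Nat.succ_pos K)
    exact_mod_cast this)

theorem TT_monic [Nontrivial R] (K : ℕ) (α : Fin (n + 1) → ℕ) : (TT R K α).Monic :=
  (monic_X_pow _).mul (monic_prod_of_monic _ _ fun i _ => (monic_X_pow_add (deg_CX K i)).pow _)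

theorem TT_natDegree [Nontrivial R] (K : ℕ) (α : Fin (n + 1) → ℕ) :
    (TT R K α).natDegree = dl K α := by
  rw [TT, (monic_X_pow _).natDegree_mul (monic_prod_of_monic _ _ fun i _ =>
    (monic_X_pow_add (deg_CX K i)).pow _), natDegree_X_pow, natDegree_prod_of_monic _ _ fun i _ =>
    (monic_X_pow_add (deg_CX K i)).pow _, dl, Fin.sum_univ_succ]
  congr 1
  · simp
  · refine Finset.sum_congr rfl fun i _ => ?_
    rw [(monic_X_pow_add (deg_CX K i)).natDegree_pow, natDegree_X_pow_add_C, Fin.val_succ]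

theorem pev_mul (P Q : (MvPolynomial (Fin n) R)[X]) (w : Fin n → R) (y : R) :
    pev (P * Q) w y = pev P w y * pev Q w y := by
  unfold pev
  rw [Polynomial.map_mul, eval_mul]

theorem pev_add (P Q : (MvPolynomial (Fin n) R)[X]) (w : Fin n → R) (y : R) :
    pev (P + Q) w y = pev P w y + pev Q w y := by
  unfold pev
  rw [Polynomial.map_add, eval_add]

theorem pev_CC (a : R) (w : Fin n → R) (y : R) :
    pev (C (MvPolynomial.C a)) w y = a := by
  unfold pev
  rw [map_C, eval_C, MvPolynomial.eval_C]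

theorem pev_sum {ι : Type} (s : Finset ι) (P : ι → (MvPolynomial (Fin n) R)[X]) (w : Fin n → R)
    (y : R) : pev (∑ i ∈ s, P i) w y = ∑ i ∈ s, pev (P i) w y := by
  unfold pev
  rw [Polynomial.map_sum, eval_finsetSum]

theorem TT_eval (K : ℕ) (α : Fin (n + 1) → ℕ) (v : Fin (n + 1) → R) :
    pev (TT R K α) (vp K v) (v 0) = ∏ i, v i ^ α i := by
  unfold pev TT vp
  rw [Polynomial.map_mul, eval_mul, Polynomial.map_pow, map_X, eval_pow, eval_X,
    Fin.prod_univ_succ, Polynomial.map_prod, eval_prod]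
  congr 1
  refine Finset.prod_congr rfl fun i _ => ?_
  rw [Polynomial.map_pow, Polynomial.map_add, Polynomial.map_pow, map_X, map_C, eval_pow, eval_add,
    eval_pow, eval_X, eval_C, MvPolynomial.eval_X, add_sub_cancel]

theorem comb {A ι : Type} [CommRing A] [DecidableEq ι] (I S : Finset ι) (hIS : I ⊆ S)
    (hh h' T : ι → A) (v pp : A) (hq : ∀ q ∈ S \ I, hh q = pp * h' q) :
    v * ∑ q ∈ I, hh q * T q + pp * (v * ∑ q ∈ S \ I, h' q * T q) = v * ∑ q ∈ S, hh q * T q := by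
  have h1 : ∑ q ∈ S \ I, hh q * T q = pp * ∑ q ∈ S \ I, h' q * T q := by
    rw [Finset.mul_sum]
    refine Finset.sum_congr rfl fun q h => ?_
    rw [hq q h, mul_assoc]
  rw [← Finset.sum_sdiff hIS, h1]
  ring

/-- Expansions in base `K + 1` are unique. -/
theorem dl_inj (K : ℕ) {α β : Fin (n + 1) → ℕ} (ha : ∀ i, α i ≤ K) (hb : ∀ i, β i ≤ K)
    (h : dl K α = dl K β) : α = β := by
  have h1 := finFunctionFinEquiv_apply_val (m := K + 1)
    (fun i => (⟨α i, Nat.lt_succ_of_le (ha i)⟩ : Fin (K + 1)))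
  have h2 := finFunctionFinEquiv_apply_val (m := K + 1)
    (fun i => (⟨β i, Nat.lt_succ_of_le (hb i)⟩ : Fin (K + 1)))
  have h3 : finFunctionFinEquiv (fun i => (⟨α i, Nat.lt_succ_of_le (ha i)⟩ : Fin (K + 1))) =
      finFunctionFinEquiv (fun i => (⟨β i, Nat.lt_succ_of_le (hb i)⟩ : Fin (K + 1))) := by
    apply Fin.ext
    rw [h1, h2]
    exact h
  have h4 := finFunctionFinEquiv.injective h3
  funext i
  have h5 := congrFun h4 i
  exact congrArg Fin.val h5

/-- The size of an expansion. -/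
theorem dl_le (K : ℕ) {α : Fin (n + 1) → ℕ} (ha : ∀ i, α i ≤ K) : dl K α ≤ (K + 1) ^ (n + 1) := by
  have h1 := finFunctionFinEquiv_apply_val (m := K + 1)
    (fun i => (⟨α i, Nat.lt_succ_of_le (ha i)⟩ : Fin (K + 1)))
  have h2 := (finFunctionFinEquiv
    (fun i => (⟨α i, Nat.lt_succ_of_le (ha i)⟩ : Fin (K + 1)))).isLt
  rw [h1] at h2
  exact h2.le

/-- The value of a polynomial with bounded exponents as a sum over functions. -/
theorem gv_eq {A : Type} [CommRing A] {m M : ℕ} (c : (Fin m → ℕ) → A) (v : Fin m → A) :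
    gv (fun α : Fin m → Fin (M + 1) => c fun i => (α i : ℕ)) v =
      ∑ α ∈ Fintype.piFinset fun _ : Fin m => Finset.range (M + 1), c α * ∏ i, v i ^ α i := by
  unfold gv
  refine Finset.sum_bij (fun α _ => fun i => (α i : ℕ)) ?_ ?_ ?_ ?_
  · intro α _
    rw [Fintype.mem_piFinset]
    exact fun i => Finset.mem_range.mpr (α i).isLt
  · intro α _ β _ h
    funext i
    exact Fin.ext (congrFun h i)
  · intro α hα
    rw [Fintype.mem_piFinset] at hα
    exact ⟨fun i => ⟨α i, Finset.mem_range.mp (hα i)⟩, Finset.mem_univ _, rfl⟩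
  · intro α _
    rfl

end

theorem ldp : LdpStmt := by
  intro hTrp hNrp p _ n K a ha hDom
  classical
  obtain ⟨κ, h0, hκ, hunit, hdvd⟩ := hNrp p (n + 1) K a ha hDom
  have hpnu : ¬ IsUnit (p : ℤ_[p]) := PadicInt.prime_p.not_isUnit
  have hp0 : (p : ℤ_[p]) ≠ 0 := by exact_mod_cast (Fact.out : p.Prime).ne_zero
  -- the coefficients as a function
  obtain ⟨h, hh0⟩ : ∃ h : (Fin (n + 1) → ℕ) → ℤ_[p],
    h = fun α => h0 (Finsupp.equivFunOnFinite.symm α) := ⟨_, rfl⟩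
  have hdeg0 : ∀ α : Fin (n + 1) → ℕ,
      (Finsupp.equivFunOnFinite.symm α : Fin (n + 1) →₀ ℕ).degree = ∑ i, α i := by
    intro α
    rw [Finsupp.degree_eq_sum]
    rfl
  have hle : ∀ α, IsUnit (h α) → ∑ i, α i ≤ K := by
    intro α hu
    by_contra hc
    push Not at hc
    have h1 := hdvd (Finsupp.equivFunOnFinite.symm α)
    rw [hdeg0] at h1
    have h2 : (p : ℤ_[p]) ∣ h α := by
      rw [hh0]
      exact (dvd_pow_self _ (by omega : ∑ i, α i - K ≠ 0)).trans h1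
    exact hpnu (isUnit_of_dvd_unit h2 hu)
  have hleK : ∀ α, IsUnit (h α) → ∀ i, α i ≤ K := fun α hu i =>
    (Finset.single_le_sum (fun _ _ => Nat.zero_le _) (Finset.mem_univ i)).trans (hle α hu)
  obtain ⟨I, hI⟩ : ∃ I : Finset (Fin (n + 1) → ℕ),
    I = (Fintype.piFinset fun _ : Fin (n + 1) => Finset.range (K + 1)).filter
      fun α => IsUnit (h α) := ⟨_, rfl⟩
  have hmemI : ∀ α, α ∈ I ↔ IsUnit (h α) := by
    intro α
    rw [hI, Finset.mem_filter, Fintype.mem_piFinset]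
    refine ⟨fun h => h.2, fun hu => ⟨fun i => ?_, hu⟩⟩
    have := hleK α hu i
    rw [Finset.mem_range]
    omega
  have hne : I.Nonempty := by
    obtain ⟨β, _, hu⟩ := hunit
    refine ⟨β, (hmemI _).2 ?_⟩
    rw [hh0]
    have e : (Finsupp.equivFunOnFinite.symm (β : Fin (n + 1) → ℕ) : Fin (n + 1) →₀ ℕ) = β :=
      Finsupp.equivFunOnFinite.symm_apply_apply β
    simp only
    rw [e]
    exact hu
  obtain ⟨β, hβ, hmax⟩ := I.exists_max_image (dl K) hne
  have hβu := (hmemI β).1 hβ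
  obtain ⟨u, hu⟩ := hβu
  refine ⟨dl K β, dl_le K (hleK β ((hmemI β).1 hβ)), fun M => ?_⟩
  obtain ⟨M', hM'⟩ : ∃ M', M' = κ + M + K + 1 := ⟨_, rfl⟩
  obtain ⟨S, hS⟩ : ∃ S : Finset (Fin (n + 1) → ℕ),
    S = Fintype.piFinset fun _ : Fin (n + 1) => Finset.range (M' + 1) := ⟨_, rfl⟩
  have hIS : I ⊆ S := by
    intro α hα
    rw [hS, Fintype.mem_piFinset]
    intro i
    have := hleK α ((hmemI α).1 hα) i
    rw [Finset.mem_range]
    omega
  have hp' : ∀ α, ∃ b : ℤ_[p], α ∉ I → h α = p * b := by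
    intro α
    by_cases hq : α ∈ I
    · exact ⟨0, fun hc => absurd hq hc⟩
    · rw [hmemI] at hq
      have h1 : (p : ℤ_[p]) ∣ h α := by
        have h2 : h α ∈ nonunits ℤ_[p] := hq
        rw [← IsLocalRing.mem_maximalIdeal, PadicInt.maximalIdeal_eq_span_p,
          Ideal.mem_span_singleton] at h2
        exact h2
      obtain ⟨b, hb⟩ := h1
      exact ⟨b, fun _ => hb⟩
  choose h' hh' using hp'
  obtain ⟨v, hv⟩ : ∃ v : ℤ_[p], v = ((u⁻¹ : ℤ_[p]ˣ) : ℤ_[p]) := ⟨_, rfl⟩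
  have hvu : v * h β = 1 := by
    rw [← hu, hv, Units.inv_mul]
  refine ⟨C (MvPolynomial.C v) * ∑ α ∈ I, C (MvPolynomial.C (h α)) * TT ℤ_[p] K α,
    C (MvPolynomial.C v) * ∑ α ∈ S \ I, C (MvPolynomial.C (h' α)) * TT ℤ_[p] K α, ?_⟩
  -- the leading part
  have hP₀ : C (MvPolynomial.C v) * ∑ α ∈ I, C (MvPolynomial.C (h α)) * TT ℤ_[p] K α =
      TT ℤ_[p] K β + C (MvPolynomial.C v) * ∑ α ∈ I.erase β, C (MvPolynomial.C (h α)) *
        TT ℤ_[p] K α := by
    rw [← Finset.add_sum_erase I _ hβ, mul_add, ← mul_assoc, ← C_mul, ← MvPolynomial.C_mul, hvu,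
      MvPolynomial.C_1, C_1, one_mul]
  have dCm : ∀ (a : MvPolynomial (Fin n) ℤ_[p]) (q : (MvPolynomial (Fin n) ℤ_[p])[X]),
      (C a * q).degree ≤ q.degree := by
    intro a q
    rw [← smul_eq_C_mul]
    exact degree_smul_le a q
  have hdeg : (C (MvPolynomial.C v) * ∑ α ∈ I.erase β, C (MvPolynomial.C (h α)) *
      TT ℤ_[p] K α).degree < (TT ℤ_[p] K β).degree := by
    rw [degree_eq_natDegree (TT_monic K _).ne_zero, TT_natDegree]
    have hlt : ∀ α ∈ I.erase β, (C (MvPolynomial.C (h α)) * TT ℤ_[p] K α).degree <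
        ((dl K β : ℕ) : WithBot ℕ) := by
      intro α hα
      obtain ⟨h1, h2⟩ := Finset.mem_erase.1 hα
      have h3 : dl K α < dl K β := by
        refine lt_of_le_of_ne (hmax α h2) fun heq => h1 ?_
        exact dl_inj K (hleK α ((hmemI α).1 h2)) (hleK β ((hmemI β).1 hβ)) heq
      refine lt_of_le_of_lt (dCm _ _) ?_
      rw [degree_eq_natDegree (TT_monic K _).ne_zero, TT_natDegree]
      exact_mod_cast h3
    refine lt_of_le_of_lt (dCm _ _) ?_
    refine lt_of_le_of_lt (degree_sum_le _ _) ?_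
    rw [Finset.sup_lt_iff (WithBot.bot_lt_coe _)]
    exact hlt
  refine ⟨?_, ?_, ?_⟩
  · rw [hP₀]
    exact (TT_monic K _).add_of_left hdeg
  · rw [hP₀, natDegree_add_eq_left_of_degree_lt hdeg, TT_natDegree]
  · intro ϕ w hϕ hϕa
    have h1 := hTrp p (n + 1) ϕ w hϕ a M'
    rw [hϕa, zero_sub, dvd_neg] at h1
    have h2 : gv (fun α : Fin (n + 1) → Fin (M' + 1) =>
        MvPowerSeries.coeff (fse α) a * (p : ℤ_[p]) ^ (∑ i, (α i : ℕ))) w =
        (p : ℤ_[p]) ^ κ * ∑ α ∈ S, h α * ∏ i, w i ^ α i := by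
      have h3 := gv_eq (M := M') (fun α : Fin (n + 1) → ℕ =>
        MvPowerSeries.coeff (Finsupp.equivFunOnFinite.symm α) a * (p : ℤ_[p]) ^ (∑ i, α i)) w
      refine h3.trans ?_
      rw [hS, Finset.mul_sum]
      refine Finset.sum_congr rfl fun α _ => ?_
      have h4 := hκ (Finsupp.equivFunOnFinite.symm α)
      rw [hdeg0] at h4
      rw [h4, hh0]
      ring
    rw [h2] at h1
    have h4 : (p : ℤ_[p]) ^ M ∣ ∑ α ∈ S, h α * ∏ i, w i ^ α i := by
      have h5 : (p : ℤ_[p]) ^ κ * (p : ℤ_[p]) ^ M ∣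
          (p : ℤ_[p]) ^ κ * ∑ α ∈ S, h α * ∏ i, w i ^ α i := by
        rw [← pow_add]
        exact (pow_dvd_pow _ (by omega)).trans h1
      exact (mul_dvd_mul_iff_left (pow_ne_zero κ hp0)).1 h5
    have h6 : C (MvPolynomial.C v) * ∑ α ∈ I, C (MvPolynomial.C (h α)) * TT ℤ_[p] K α +
        C (MvPolynomial.C (p : ℤ_[p])) *
        (C (MvPolynomial.C v) * ∑ α ∈ S \ I, C (MvPolynomial.C (h' α)) * TT ℤ_[p] K α) =
        C (MvPolynomial.C v) * ∑ α ∈ S, C (MvPolynomial.C (h α)) * TT ℤ_[p] K α :=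
      comb I S hIS (fun α => C (MvPolynomial.C (h α))) (fun α => C (MvPolynomial.C (h' α)))
        (fun α => TT ℤ_[p] K α) _ _ fun α hα => by
          rw [hh' α (Finset.mem_sdiff.1 hα).2, MvPolynomial.C_mul, C_mul]
    rw [h6, pev_mul, pev_CC, pev_sum]
    have h7 : ∀ α ∈ S, pev (C (MvPolynomial.C (h α)) * TT ℤ_[p] K α) (vp K w) (w 0) =
        h α * ∏ i, w i ^ α i := by
      intro α _
      rw [pev_mul, pev_CC, TT_eval]
    rw [Finset.sum_congr rfl h7]
    exact h4.mul_left v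

end Pool.Agent.LRG.H88
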