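import Pool.Agent.LRG.StmtsB3

/-!
# LRG, row PPW: the counting theorem
-/

set_option autoImplicit false

open Polynomial

namespace Pool.Agent.LRG.H88

lemma depW_mono {m k E E' : ℕ} (h : E' ≤ E) {T : Finset (Fin (m + k) → ℤ)} (hd : DepW E' T) :
    DepW E T := by
  obtain ⟨g, h1, h2, h3⟩ := hd
  exact ⟨g, h1, h2.trans h, h3⟩

lemma rob_mono {m k E E' : ℕ} {L L' : ℝ} (h : E' ≤ E) (hL : L' ≤ L)
    {T : Finset (Fin (m + k) → ℤ)} (hr : Rob E L T) : Rob E' L' T := by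
  intro T' hT' hc hd
  refine hr T' hT' (hc.trans ?_) (depW_mono h hd)
  exact mul_le_mul_of_nonneg_right hL (Nat.cast_nonneg _)

/-- The equivalence of the rings of power series of a renaming. -/
noncomputable abbrev RN (p : ℕ) [Fact p.Prime] {σ τ : Type} (f : σ ≃ τ) :
    MvPowerSeries σ ℤ_[p] ≃ₐ[ℤ_[p]] MvPowerSeries τ ℤ_[p] := MvPowerSeries.renameEquiv ℤ_[p] f

lemma RN_X (p : ℕ) [Fact p.Prime] {σ τ : Type} (f : σ ≃ τ) (i : σ) :
    RN p f (MvPowerSeries.X i) = MvPowerSeries.X (f i) := by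
  change MvPowerSeries.rename f (MvPowerSeries.X i) = _
  rw [MvPowerSeries.rename_X]

lemma evZ_rename {p : ℕ} [Fact p.Prime] {σ τ : Type} (f : τ ≃ σ) {F : MvPowerSeries σ ℤ_[p]}
    {x : τ → ℤ} (h : EvZ F fun s => x (f.symm s)) : EvZ (RN p f.symm F) x := by
  obtain ⟨φ, h1, h2⟩ := h
  refine ⟨φ.comp (RN p f).toAlgHom, fun i => ?_, ?_⟩
  · change φ (RN p f (MvPowerSeries.X i)) = _
    rw [RN_X, h1]
    simp only [f.symm_apply_apply]
  · change φ (RN p f (RN p f.symm F)) = 0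
    have h3 : RN p f (RN p f.symm F) = F := (RN p f).apply_symm_apply F
    rw [h3, h2]

lemma arc_rename {p : ℕ} [Fact p.Prime] {σ τ : Type} (f : τ ≃ σ) {F : MvPowerSeries σ ℤ_[p]}
    {K₀ : ℕ} {S : Finset (σ → ℤ)} {T : Finset (τ → ℤ)}
    (hTS : ∀ x ∈ T, (fun s => x (f.symm s)) ∈ S) (h : ArcConcl (RN p f.symm F) K₀ T) :
    ArcConcl F K₀ S := by
  obtain ⟨y, ξ, h1, h2, h3, h4, ⟨Φ, h5, h6⟩, h7⟩ := h
  refine ⟨fun a s => y a (f.symm s), fun s => ξ (f.symm s), ?_, fun a => hTS _ (h2 a),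
    fun s => h3 (f.symm s), fun s => h4 (f.symm s), ⟨Φ.comp (RN p f.symm).toAlgHom, fun s => ?_, ?_⟩,
    ?_⟩
  · intro a b hab
    apply h1
    funext i
    have := congrFun hab (f i)
    simpa using this
  · change Φ (RN p f.symm (MvPowerSeries.X s)) = _
    rw [RN_X, h5]
  · exact h6
  · intro q hq a
    have h8 := h7 (MvPolynomial.rename f.symm q) (by
      rw [MvPolynomial.aeval_rename]
      exact hq) a
    rw [MvPolynomial.eval_rename] at h8
    exact h8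

theorem ppw : PpwRowStmt := by
  intro hSch hStp p _ σ _ F K₀ ε hε
  classical
  obtain ⟨θ, hθ, hS⟩ := hSch σ ε hε
  have key : ∀ m E : ℕ, ∃ (e : ℕ) (C : ℝ), 1 ≤ m →
      ∀ (φ : Fin (m + (Fintype.card σ - m)) ≃ σ) (X : ℕ), 1 ≤ X →
      ∀ (T : Finset (Fin (m + (Fintype.card σ - m)) → ℤ))
        (G : Fin (Fintype.card σ - m) → (MvPolynomial (Fin m) ℤ)[X]),
      T.Nonempty → (∀ x ∈ T, ∀ i, |x i| ≤ X ∧ (p : ℤ) ∣ x i) →
      (∀ x ∈ T, EvZ (RN p φ.symm F) x) → Chart E T G → Rob e (C * (X : ℝ) ^ θ) T →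
      ArcConcl (RN p φ.symm F) K₀ T := by
    intro m E
    by_cases hm : 1 ≤ m
    · have h1 := fun φ : Fin (m + (Fintype.card σ - m)) ≃ σ =>
        hStp p m (Fintype.card σ - m) E K₀ hm (RN p φ.symm F) θ hθ
      choose e C hC h2 using h1
      refine ⟨∑ φ, e φ, ∑ φ, C φ, fun _ φ X hX T G hT hx hE hCh hR => ?_⟩
      refine h2 φ X hX T G hT hx hE hCh (rob_mono ?_ ?_ hR)
      · exact Finset.single_le_sum (f := e) (fun _ _ => Nat.zero_le _) (Finset.mem_univ φ)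
      · refine mul_le_mul_of_nonneg_right ?_ (Real.rpow_nonneg (Nat.cast_nonneg X) θ)
        exact Finset.single_le_sum (f := C) (fun φ _ => by linarith [hC φ]) (Finset.mem_univ φ)
    · exact ⟨0, 0, fun h => absurd h hm⟩
  choose e C hkey using key
  obtain ⟨B, _, hB⟩ := hS e C
  refine ⟨B, fun X hX S hx hE hcard => ?_⟩
  obtain ⟨m, k, E, φ, T, G, hm, _, hT, hTS, hCh, hR⟩ := hB X (by exact_mod_cast hX) S hcard
  have hk : m + k = Fintype.card σ := by
    have := Fintype.card_congr φ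
    rwa [Fintype.card_fin] at this
  obtain rfl : k = Fintype.card σ - m := by omega
  refine arc_rename φ hTS (hkey m E hm φ X hX T G hT ?_ ?_ hCh hR)
  · intro x hxT i
    have h1 := hx _ (hTS x hxT) (φ i)
    simpa using h1
  · intro x hxT
    exact evZ_rename φ (hE _ (hTS x hxT))

end Pool.Agent.LRG.H88
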